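import Pool.Agent.W587.MX.Stm

/-!
Project MX (helper587, MP_d797f5_an), part T11: there is no simple point for large `K`.
-/

set_option autoImplicit false

namespace Pool.Agent.W885.MX

open Set Filter Topology Metric
open Pool.Agent.W587.MX

/-- few indices with small `z i` -/
lemma small_card (f fs : ℂ → ℂ) (m : ℕ) (δ : ℝ) (K : ℕ) (a0 : ℂ) (z w : Fin K → ℂ)
    (hC : Cnt f m δ) (h : SP f fs K a0 z w) :
    (Finset.univ.filter (fun i : Fin K => ‖z i‖ < δ)).card ≤ m := by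
  obtain ⟨ha, hinj, Z, W, hZ, -, -, -⟩ := h
  have h1 := hC.2 a0 ha ((Finset.univ.filter (fun i : Fin K => ‖z i‖ < δ)).image z) (by
    intro y hy
    rw [Finset.mem_image] at hy
    obtain ⟨i, hi, rfl⟩ := hy
    rw [Finset.mem_filter] at hi
    refine ⟨hi.2, ?_⟩
    obtain ⟨⟨-, h2⟩, h3⟩ := hZ i
    have h4 := h2.self_of_nhds
    rw [h3] at h4
    exact h4.2)
  rwa [Finset.card_image_of_injective _ hinj] at h1

lemma tie_eq (f fs : ℂ → ℂ) (K : ℕ) (a0 : ℂ) (z w : Fin K → ℂ) (h : SP f fs K a0 z w)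
    (i j : Fin K) : z i * w i = z j * w j := by
  obtain ⟨-, -, Z, W, hZ, hW, ht, -⟩ := h
  have h1 := (ht i j).self_of_nhds
  rw [(hZ i).2, (hZ j).2, (hW i).2, (hW j).2] at h1
  exact h1

lemma lower (hs1 : S1_SYM) (f fs : ℂ → ℂ) (m : ℕ) (δ : ℝ) (K : ℕ) (hK : 2 * m < K)
    (hC : Cnt f m δ) (hC' : Cnt fs m δ) (a0 : ℂ) (z w : Fin K → ℂ) (h : SP f fs K a0 z w)
    (i : Fin K) : δ ^ 2 ≤ ‖z i * w i‖ := by
  classical
  have h1 := small_card f fs m δ K a0 z w hC h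
  have h2 := small_card fs f m δ K a0 w z hC' (hs1 f fs K a0 z w h).1
  have h3 : ∃ j : Fin K, ¬ ‖z j‖ < δ ∧ ¬ ‖w j‖ < δ := by
    by_contra hcon
    push Not at hcon
    have h4 : (Finset.univ : Finset (Fin K)) ⊆
        (Finset.univ.filter (fun i : Fin K => ‖z i‖ < δ)) ∪
        (Finset.univ.filter (fun i : Fin K => ‖w i‖ < δ)) := by
      intro j _
      rw [Finset.mem_union, Finset.mem_filter, Finset.mem_filter]
      by_cases hj : ‖z j‖ < δ
      · exact Or.inl ⟨Finset.mem_univ _, hj⟩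
      · exact Or.inr ⟨Finset.mem_univ _, hcon j (not_lt.1 hj)⟩
    have h5 := (Finset.card_le_card h4).trans (Finset.card_union_le _ _)
    rw [Finset.card_univ, Fintype.card_fin] at h5
    omega
  obtain ⟨j, hj1, hj2⟩ := h3
  rw [tie_eq f fs K a0 z w h i j, norm_mul, pow_two]
  exact mul_le_mul (not_lt.1 hj1) (not_lt.1 hj2) hC.1.le (norm_nonneg _)

theorem noweb (h3 : T3_CNT) (hs1 : S1_SYM) (hs4 : S4_SHIFT) (h9 : T9_LIMF) (h10 : T10_LIMI) :
    T11_NOWEB := by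
  intro f fs hf hfs hf0 hfs0 hdf hdfs
  obtain ⟨m1, δ1, hc1⟩ := h3 f hf hf0 hdf
  obtain ⟨m2, δ2, hc2⟩ := h3 fs hfs hfs0 hdfs
  set m := max m1 m2 with hm
  set δ := min δ1 δ2 with hδ
  have hδ0 : 0 < δ := lt_min hc1.1 hc2.1
  have hC : Cnt f m δ := ⟨hδ0, fun a ha s hs => (hc1.2 a ha s (fun z hz =>
    ⟨(hs z hz).1.trans_le (min_le_left _ _), (hs z hz).2⟩)).trans (le_max_left _ _)⟩
  have hC' : Cnt fs m δ := ⟨hδ0, fun a ha s hs => (hc2.2 a ha s (fun z hz =>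
    ⟨(hs z hz).1.trans_le (min_le_right _ _), (hs z hz).2⟩)).trans (le_max_right _ _)⟩
  obtain ⟨K, hK⟩ : ∃ K : ℕ, K = 2 * m + 1 := ⟨_, rfl⟩
  refine ⟨K, by omega, ?_⟩
  intro a0 z0 w0 hSP0
  have hlow : ∀ a0 z w, SP f fs K a0 z w → ∀ i, δ ^ 2 ≤ ‖z i * w i‖ := fun a0 z w h i =>
    lower hs1 f fs m δ K (by omega) hC hC' a0 z w h i
  set S : Set ℝ := {x | ∃ a0 z w, SP f fs K a0 z w ∧ ∃ i, x = ‖z i * w i‖} with hS
  have hi0 : 0 < K := by omega
  have hne : S.Nonempty := ⟨_, a0, z0, w0, hSP0, ⟨0, hi0⟩, rfl⟩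
  have hbdd : BddBelow S := ⟨δ ^ 2, by
    rintro x ⟨a, z, w, h, i, rfl⟩
    exact hlow a z w h i⟩
  set κ := sInf S with hκ
  have hκδ : δ ^ 2 ≤ κ := le_csInf hne (by
    rintro x ⟨a, z, w, h, i, rfl⟩
    exact hlow a z w h i)
  have hκ0 : 0 < κ := lt_of_lt_of_le (by positivity) hκδ
  have hκle : ∀ a0 z w, SP f fs K a0 z w → ∀ i, κ ≤ ‖z i * w i‖ := fun a z w h i =>
    csInf_le hbdd ⟨a, z, w, h, i, rfl⟩
  have hex : ∀ n : ℕ, ∃ (a : ℂ) (z w : Fin K → ℂ), SP f fs K a z w ∧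
      ∀ i, ‖z i * w i‖ < κ + 1 / ((n : ℝ) + 1) := by
    intro n
    have hlt : κ < κ + 1 / ((n : ℝ) + 1) := lt_add_of_pos_right _ (by positivity)
    obtain ⟨x, ⟨a, z, w, h, i, rfl⟩, hx⟩ := exists_lt_of_csInf_lt hne hlt
    refine ⟨a, z, w, h, fun j => ?_⟩
    rw [tie_eq f fs K a z w h j i]
    exact hx
  choose a z w hSP hlt using hex
  obtain ⟨l, hl⟩ : ∃ l : Ultrafilter ℕ, (l : Filter ℕ) ≤ atTop :=
    ⟨Filter.hyperfilter ℕ, Nat.hyperfilter_le_atTop⟩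
  have hlim0 : Tendsto (fun n : ℕ => 1 / ((n : ℝ) + 1)) (l : Filter ℕ) (𝓝 0) :=
    tendsto_one_div_add_atTop_nhds_zero_nat.mono_left hl
  have hlimκ : Tendsto (fun n : ℕ => κ + 1 / ((n : ℝ) + 1)) (l : Filter ℕ) (𝓝 κ) := by
    have := (tendsto_const_nhds (x := κ) (f := (l : Filter ℕ))).add hlim0
    rwa [add_zero] at this
  by_cases htop : Tendsto (fun n => ‖a n‖) (l : Filter ℕ) atTop
  · refine h10 f fs κ K l a z w hf hfs hf0 hfs0 (by omega) hκ0 hκle hSP htop ?_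
    intro i
    exact tendsto_of_tendsto_of_tendsto_of_le_of_le tendsto_const_nhds hlimκ
      (fun n => hκle _ _ _ (hSP n) i) (fun n => (hlt n i).le)
  · rw [Filter.tendsto_atTop, not_forall] at htop
    obtain ⟨C, hCn⟩ := htop
    have hev : ∀ᶠ n in (l : Filter ℕ), ¬ C ≤ ‖a n‖ := Ultrafilter.eventually_not.2 hCn
    have hmem : closedBall (0 : ℂ) C ∈ (l.map a) := by
      rw [Ultrafilter.mem_map]
      filter_upwards [hev] with n hn
      rw [Set.mem_preimage, mem_closedBall, dist_zero_right]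
      exact (not_le.1 hn).le
    obtain ⟨as, -, has⟩ := isCompact_iff_ultrafilter_le_nhds'.1
      (isCompact_closedBall (0 : ℂ) C) (l.map a) hmem
    have has' : Tendsto a (l : Filter ℕ) (𝓝 as) := has
    have hsh : ∀ n : ℕ, ∃ (a1 : ℂ) (z1 w1 : Fin K → ℂ), SP f fs K a1 z1 w1 ∧ a1 ≠ as ∧
        ‖a1 - a n‖ < 1 / ((n : ℝ) + 1) ∧ ∀ i, ‖z1 i * w1 i - z n i * w n i‖ <
          1 / ((n : ℝ) + 1) := by
      intro n
      obtain ⟨a1, z1, w1, h1, h2, h3, h4⟩ := hs4 f fs K (a n) (z n) (w n) hf hfs (hSP n) as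
        (1 / ((n : ℝ) + 1)) (by positivity)
      exact ⟨a1, z1, w1, h1, h2, h3, fun i => (h4 i).2.2⟩
    choose a' z' w' hSP' hne' hd hp using hsh
    have hdiff : Tendsto (fun n => a' n - a n) (l : Filter ℕ) (𝓝 0) :=
      squeeze_zero_norm (fun n => (hd n).le) hlim0
    have ha' : Tendsto a' (l : Filter ℕ) (𝓝 as) := by
      have := hdiff.add has'
      rw [zero_add] at this
      refine this.congr (fun n => ?_)
      ring
    refine h9 f fs m δ κ K l a' z' w' as hf hfs hf0 hfs0 hdf hdfs hC hC' (by omega) hκ0 hκle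
      hSP' hne' ha' ?_
    intro i
    have hup : Tendsto (fun n : ℕ => κ + 1 / ((n : ℝ) + 1) + 1 / ((n : ℝ) + 1)) (l : Filter ℕ)
        (𝓝 κ) := by
      have := hlimκ.add hlim0
      rwa [add_zero] at this
    refine tendsto_of_tendsto_of_tendsto_of_le_of_le tendsto_const_nhds hup
      (fun n => hκle _ _ _ (hSP' n) i) (fun n => ?_)
    have e1 : z' n i * w' n i = z n i * w n i + (z' n i * w' n i - z n i * w n i) := by ring
    have h5 : ‖z' n i * w' n i‖ ≤ ‖z n i * w n i‖ + ‖z' n i * w' n i - z n i * w n i‖ := by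
      calc ‖z' n i * w' n i‖ = ‖z n i * w n i + (z' n i * w' n i - z n i * w n i)‖ := by
            rw [← e1]
        _ ≤ _ := norm_add_le _ _
    have h6 := hlt n i
    have h7 := hp n i
    show ‖z' n i * w' n i‖ ≤ κ + 1 / ((n : ℝ) + 1) + 1 / ((n : ℝ) + 1)
    linarith

end Pool.Agent.W885.MX
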